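import Pool.Agent.H41.PagingB

set_option autoImplicit false

namespace Pool.Agent.Results.MP_9bbf37_lc.Exact

open Pool.Agent.H41.Paging

/-- Q1: c(L_i, L_l) = min(k, ⌊l/(i+1)⌋ + 1) = min(k, ⌈(l+1)/(i+1)⌉) for every memory size k ≥ 1,
every universe with more than k pages, every initial contents and all i < l. -/
theorem result {P : Type} [DecidableEq P] (k i l : ℕ) (hk : 1 ≤ k) (hil : i < l)
    (C₀ : Finset P) (h0 : C₀.card ≤ k) (hP : ∃ U : Finset P, k < U.card) :
    compRatio k C₀ i l = ((min k (l / (i + 1) + 1) : ℕ) : EReal) :=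
  main hk hil C₀ h0 hP

end Pool.Agent.Results.MP_9bbf37_lc.Exact
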